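import Mathlib
import Pool.Agent.W889.SR.Stm2

/-!
# Fat trees: equivalence of cones (project SR2, part FAT)
-/

set_option autoImplicit false

namespace Pool.Agent.W762.SR

open Set Ordinal Pool.Agent.W889.SR

/-- the invariant: a finite set of matched pairs -/
structure Inv {X : Type} (r : X → X → Prop) (rk : X → Ordinal.{0}) (θ : Ordinal.{0}) (x y : X)
    (S : Set (X × X)) : Prop where
  fin : S.Finite
  v1 : ∀ p ∈ S, r x p.1 ∧ r y p.2
  v2 : (x, y) ∈ S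
  v3 : ∀ p ∈ S, ∀ q ∈ S, (r p.1 q.1 ↔ r p.2 q.2) ∧ (p.1 = q.1 ↔ p.2 = q.2)
  v4a : ∀ p ∈ S, ∀ z, r x z → r z p.1 → ∃ q ∈ S, q.1 = z
  v4b : ∀ p ∈ S, ∀ z, r y z → r z p.2 → ∃ q ∈ S, q.2 = z
  v5 : ∀ p ∈ S, rk p.1 = rk p.2 ∨ (θ ≤ rk p.1 ∧ θ ≤ rk p.2)

variable {X : Type} {r : X → X → Prop} {rk : X → Ordinal.{0}}

theorem Inv.symm {θ : Ordinal.{0}} {x y : X} {S : Set (X × X)} (h : Inv r rk θ x y S) :
    Inv r rk θ y x (Prod.swap ⁻¹' S) where
  fin := h.fin.preimage (Prod.swap_injective.injOn)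
  v1 := fun p hp => ⟨(h.v1 _ hp).2, (h.v1 _ hp).1⟩
  v2 := h.v2
  v3 := fun p hp q hq => ⟨(h.v3 _ hp _ hq).1.symm, (h.v3 _ hp _ hq).2.symm⟩
  v4a := fun p hp z hz hz' => by
    obtain ⟨q, hq, hq'⟩ := h.v4b _ hp z hz hz'
    exact ⟨q.swap, by simpa using hq, hq'⟩
  v4b := fun p hp z hz hz' => by
    obtain ⟨q, hq, hq'⟩ := h.v4a _ hp z hz hz'
    exact ⟨q.swap, by simpa using hq, hq'⟩
  v5 := fun p hp => by
    rcases h.v5 _ hp with h5 | h5
    · exact Or.inl h5.symm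
    · exact Or.inr ⟨h5.2, h5.1⟩

theorem Inv.mono {θ θ' : Ordinal.{0}} (hθ : θ ≤ θ') {x y : X} {S : Set (X × X)}
    (h : Inv r rk θ' x y S) : Inv r rk θ x y S :=
  { h with v5 := fun p hp => (h.v5 p hp).imp id fun h5 => ⟨hθ.trans h5.1, hθ.trans h5.2⟩ }

theorem le_child (ht : IsTree r) {p w q : X} (hw : Ch r p w) (hq : q ≠ w) : r q w ↔ r q p := by
  constructor
  · intro h
    rcases ht.chain w q p h hw.1 with h1 | h1
    · exact h1
    · rcases hw.2.2 q h1 h with h2 | h2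
      · rw [h2]; exact ht.refl p
      · exact absurd h2 hq
  · intro h
    exact ht.trans _ _ _ h hw.1

theorem Inv.add (hF : Fat r rk) {θ : Ordinal.{0}} {x y : X} {S : Set (X × X)}
    (h : Inv r rk (θ + 1) x y S) {p : X × X} (hp : p ∈ S) {z : X} (hz : Ch r p.2 z)
    (hzS : ∀ q ∈ S, q.2 ≠ z) : ∃ w, Inv r rk θ x y (insert (w, z) S) := by
  have ht := hF.tree
  obtain ⟨w, hw, hwS, hwr⟩ : ∃ w, Ch r p.1 w ∧ (∀ q ∈ S, q.1 ≠ w) ∧
      (rk w = rk z ∨ (θ ≤ rk w ∧ θ ≤ rk z)) := by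
    have hfin : (Prod.fst '' S).Finite := h.fin.image _
    by_cases hlt : rk z < rk p.1
    · obtain ⟨c, hc, hcS⟩ := ((hF.inf p.1 (rk z) hlt).sdiff hfin).nonempty
      exact ⟨c, hc.1, fun q hq he => hcS ⟨q, hq, he⟩, Or.inl hc.2⟩
    · have h1 : rk p.1 ≤ rk z := not_lt.1 hlt
      have h2 : rk z < rk p.2 := hF.lt _ _ hz
      have h3 : θ + 1 ≤ rk p.1 := by
        rcases h.v5 p hp with h5 | h5
        · exact absurd h5 (h1.trans_lt h2).ne
        · exact h5.1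
      have h4 : θ < rk p.1 := (Order.lt_add_one_iff.2 le_rfl).trans_le h3
      obtain ⟨c, hc, hcS⟩ := ((hF.inf p.1 θ h4).sdiff hfin).nonempty
      exact ⟨c, hc.1, fun q hq he => hcS ⟨q, hq, he⟩, Or.inr ⟨hc.2.ge, h4.le.trans h1⟩⟩
  have hxw : r x w := ht.trans _ _ _ (h.v1 p hp).1 hw.1
  have hyz : r y z := ht.trans _ _ _ (h.v1 p hp).2 hz.1
  refine ⟨w, ⟨h.fin.insert _, ?_, mem_insert_of_mem _ h.v2, ?_, ?_, ?_, ?_⟩⟩
  · rintro q (rfl | hq)
    · exact ⟨hxw, hyz⟩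
    · exact h.v1 q hq
  · have key : ∀ q ∈ S, (r q.1 w ↔ r q.2 z) ∧ (r w q.1 ↔ r z q.2) := by
      intro q hq
      refine ⟨?_, ?_⟩
      · rw [le_child ht hw (hwS q hq), le_child ht hz (hzS q hq)]
        exact (h.v3 q hq p hp).1
      · constructor
        · intro h1
          obtain ⟨q', hq', he⟩ := h.v4a q hq w hxw h1
          exact absurd he (hwS q' hq')
        · intro h1
          obtain ⟨q', hq', he⟩ := h.v4b q hq z hyz h1
          exact absurd he (hzS q' hq')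
    rintro q (rfl | hq) q' (rfl | hq')
    · exact ⟨⟨fun _ => ht.refl _, fun _ => ht.refl _⟩, ⟨fun _ => rfl, fun _ => rfl⟩⟩
    · exact ⟨(key q' hq').2, ⟨fun he => absurd he.symm (hwS q' hq'),
        fun he => absurd he.symm (hzS q' hq')⟩⟩
    · exact ⟨(key q hq).1, ⟨fun he => absurd he (hwS q hq), fun he => absurd he (hzS q hq)⟩⟩
    · exact h.v3 q hq q' hq'
  · rintro q (rfl | hq) v hv hv'
    · rcases ht.chain w v p.1 hv' hw.1 with h1 | h1
      · obtain ⟨q', hq', he⟩ := h.v4a p hp v hv h1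
        exact ⟨q', mem_insert_of_mem _ hq', he⟩
      · rcases hw.2.2 v h1 hv' with h2 | h2
        · exact ⟨p, mem_insert_of_mem _ hp, h2.symm⟩
        · exact ⟨(w, z), mem_insert _ _, h2.symm⟩
    · obtain ⟨q', hq', he⟩ := h.v4a q hq v hv hv'
      exact ⟨q', mem_insert_of_mem _ hq', he⟩
  · rintro q (rfl | hq) v hv hv'
    · rcases ht.chain z v p.2 hv' hz.1 with h1 | h1
      · obtain ⟨q', hq', he⟩ := h.v4b p hp v hv h1
        exact ⟨q', mem_insert_of_mem _ hq', he⟩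
      · rcases hz.2.2 v h1 hv' with h2 | h2
        · exact ⟨p, mem_insert_of_mem _ hp, h2.symm⟩
        · exact ⟨(w, z), mem_insert _ _, h2.symm⟩
    · obtain ⟨q', hq', he⟩ := h.v4b q hq v hv hv'
      exact ⟨q', mem_insert_of_mem _ hq', he⟩
  · rintro q (rfl | hq)
    · exact hwr
    · rcases h.v5 q hq with h5 | h5
      · exact Or.inl h5
      · exact Or.inr ⟨(Order.lt_add_one_iff.2 (le_refl θ)).le.trans h5.1,
          (Order.lt_add_one_iff.2 (le_refl θ)).le.trans h5.2⟩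

theorem parent (ht : IsTree r) {y z : X} (hyz : r y z) (hne : z ≠ y) :
    ∃ z', r y z' ∧ Ch r z' z ∧ {w | r w z'}.ncard < {w | r w z}.ncard := by
  have hfin : {w | r y w ∧ w ≠ z ∧ r w z}.Finite :=
    (ht.fin z).subset fun w hw => hw.2.2
  obtain ⟨z', hz', hmax⟩ := Set.exists_max_image {w | r y w ∧ w ≠ z ∧ r w z}
    (fun w => {v | r v w}.ncard) hfin ⟨y, ht.refl y, hne.symm, hyz⟩
  have key : ∀ u v : X, r u v → u ≠ v → {w | r w u}.ncard < {w | r w v}.ncard := by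
    intro u v huv huv'
    refine Set.ncard_lt_ncard ⟨fun w hw => ht.trans _ _ _ hw huv, fun hs => ?_⟩ (ht.fin v)
    exact huv' (ht.antisymm _ _ huv (hs (ht.refl v)))
  refine ⟨z', hz'.1, ⟨hz'.2.2, hz'.2.1, fun v h1 h2 => ?_⟩, key _ _ hz'.2.2 hz'.2.1⟩
  by_contra hcon
  push Not at hcon
  have := hmax v ⟨ht.trans _ _ _ hz'.1 h1, hcon.2, h2⟩
  exact absurd this (not_le.2 (key _ _ h1 hcon.1.symm))

theorem reach (hF : Fat r rk) {x y : X} : ∀ (n : ℕ) (z : X), {w | r w z}.ncard = n → r y z →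
    ∃ N : ℕ, ∀ (θ : Ordinal.{0}) (S : Set (X × X)), Inv r rk (θ + N) x y S →
      ∃ S', S ⊆ S' ∧ (∃ q ∈ S', q.2 = z) ∧ Inv r rk θ x y S' := by
  intro n
  induction n using Nat.strong_induction_on with
  | _ n ih =>
    intro z hn hyz
    by_cases hzy : z = y
    · refine ⟨0, fun θ S h => ⟨S, Subset.rfl, ⟨(x, y), h.v2, hzy.symm⟩, ?_⟩⟩
      simpa using h
    · obtain ⟨z', hyz', hch, hlt⟩ := parent hF.tree hyz hzy
      obtain ⟨N, hN⟩ := ih _ (hn ▸ hlt) z' rfl hyz'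
      refine ⟨1 + N, fun θ S h => ?_⟩
      have h' : Inv r rk ((θ + 1) + N) x y S := by
        rw [add_assoc]
        have e : ((1 + N : ℕ) : Ordinal.{0}) = 1 + (N : Ordinal.{0}) := by push_cast; rfl
        rwa [e] at h
      obtain ⟨S', hS, ⟨q, hq, hqz⟩, h1⟩ := hN _ _ h'
      by_cases hz : ∃ q ∈ S', q.2 = z
      · exact ⟨S', hS, hz, h1.mono (Order.lt_add_one_iff.2 (le_refl θ)).le⟩
      · push Not at hz
        obtain ⟨w, hw⟩ := h1.add hF hq (hqz ▸ hch) hz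
        exact ⟨_, hS.trans (subset_insert _ _), ⟨(w, z), mem_insert _ _, rfl⟩, hw⟩

theorem tuples (hF : Fat r rk) {x y : X} : ∀ (k : ℕ) (d : Fin k → X), (∀ i, r y (d i)) →
    ∃ N : ℕ, ∀ (θ : Ordinal.{0}) (S : Set (X × X)), Inv r rk (θ + N) x y S →
      ∃ S', S ⊆ S' ∧ (∀ i, ∃ q ∈ S', q.2 = d i) ∧ Inv r rk θ x y S' := by
  intro k
  induction k with
  | zero =>
    intro d _
    exact ⟨0, fun θ S h => ⟨S, Subset.rfl, fun i => i.elim0, by simpa using h⟩⟩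
  | succ k ih =>
    intro d hd
    obtain ⟨N1, h1⟩ := ih (fun i => d i.succ) (fun i => hd _)
    obtain ⟨N2, h2⟩ := reach (x := x) hF _ (d 0) rfl (hd 0)
    refine ⟨N2 + N1, fun θ S h => ?_⟩
    have h' : Inv r rk ((θ + N2) + N1) x y S := by
      rw [add_assoc]
      have e : ((N2 + N1 : ℕ) : Ordinal.{0}) = (N2 : Ordinal.{0}) + (N1 : Ordinal.{0}) := by
        push_cast; rfl
      rwa [e] at h
    obtain ⟨S1, hS1, hd1, hI1⟩ := h1 _ _ h'
    obtain ⟨S2, hS2, hd2, hI2⟩ := h2 _ _ hI1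
    refine ⟨S2, hS1.trans hS2, fun i => ?_, hI2⟩
    refine Fin.cases ?_ (fun i => ?_) i
    · exact hd2
    · obtain ⟨q, hq, he⟩ := hd1 i
      exact ⟨q, hS2 hq, he⟩

theorem main (hF : Fat r rk) : ∀ (δ : Ordinal.{0}) (x y : X) (S : Set (X × X)),
    Inv r rk (ω * δ) x y S → ∀ (ι : Type) (a b : ι → X), (∀ i, (a i, b i) ∈ S) →
      BF δ r {z | r x z} a r {z | r y z} b := by
  intro δ
  induction δ using Ordinal.induction with
  | h δ ih =>
    intro x y S h ι a b hab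
    rw [BF_iff]
    refine ⟨⟨fun i j => (h.v3 _ (hab i) _ (hab j)).1, fun i j => (h.v3 _ (hab i) _ (hab j)).2⟩,
      fun γ hγ k d hd => ?_⟩
    obtain ⟨N, hN⟩ := tuples (x := x) hF k d hd
    have hle : ω * γ + (N : Ordinal.{0}) ≤ ω * δ := by
      calc ω * γ + (N : Ordinal.{0}) ≤ ω * γ + ω :=
            add_le_add_right (Ordinal.natCast_lt_omega0 N).le _
        _ = ω * (γ + 1) := by rw [mul_add, mul_one]
        _ ≤ ω * δ := mul_le_mul_right (Order.add_one_le_of_lt hγ) _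
    obtain ⟨S', hS, hd', hI⟩ := hN _ _ (h.mono hle)
    choose q hq hqd using hd'
    refine ⟨fun i => (q i).1, fun i => (hI.v1 _ (hq i)).1, ?_⟩
    refine ih γ hγ y x _ hI.symm _ _ _ ?_
    rintro (i | i)
    · exact hS (hab i)
    · show ((q i).1, d i) ∈ S'
      rw [← hqd i]
      exact hq i

theorem fat : FAT_stmt := by
  intro X r rk hF δ x y hxy
  have key : ∀ x y : X, (rk x = rk y ∨ (ω * δ ≤ rk x ∧ ω * δ ≤ rk y)) →
      BF δ r {z | r x z} (fun _ : Unit => x) r {z | r y z} (fun _ : Unit => y) := by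
    intro x y hxy
    refine main hF δ x y {(x, y)} ⟨finite_singleton _, ?_, rfl, ?_, ?_, ?_, ?_⟩ _ _ _
      (fun _ => rfl)
    · rintro p rfl
      exact ⟨hF.tree.refl x, hF.tree.refl y⟩
    · rintro p rfl q rfl
      exact ⟨⟨fun _ => hF.tree.refl y, fun _ => hF.tree.refl x⟩, ⟨fun _ => rfl, fun _ => rfl⟩⟩
    · rintro p rfl z h1 h2
      exact ⟨(x, y), rfl, hF.tree.antisymm _ _ h1 h2⟩
    · rintro p rfl z h1 h2
      exact ⟨(x, y), rfl, hF.tree.antisymm _ _ h1 h2⟩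
    · rintro p rfl
      exact hxy
  exact ⟨key x y hxy, key y x (hxy.imp Eq.symm fun h => ⟨h.2, h.1⟩)⟩

end Pool.Agent.W762.SR
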